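import Pool.Agent.P.MP_eb0bd2_lc.A.Bridge

set_option autoImplicit false

namespace Pool.Agent.Results.MP_eb0bd2_lc.AllAlpha

open Pool.Agent.P.MP_eb0bd2_lc

/-- For all fixed `a`, `r` and every graph `H` on `r` vertices there is a polynomial-time algorithm
which, given a loopless digraph of independence number at most `a` and `r` pairs (type, root),
decides whether the digraph has `r` branchings of these types (out or in) and roots such that the
branchings number `i` and `j` are arc-disjoint for every edge `ij` of `H`. -/
theorem result (a r : ℕ) (H : SimpleGraph (Fin r)) :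
    ∃ f : List (List Bool) × List (Bool × ℕ) → Bool,
    N68a2faeb.IsPolyTime f ∧ ∀ (n : ℕ) (D : Digraph (Fin n)) [DecidableRel D.Adj]
      (out : Fin r → Bool) (root : Fin r → Fin n), (∀ v, ¬ D.Adj v v) →
      (∀ I : Finset (Fin n), IsIndep D I → I.card ≤ a) →
      (f (adjMatrix D, List.ofFn fun i => (out i, (root i).val)) = true ↔
        ∃ B : Fin r → Digraph (Fin n), (∀ i, if out i then IsOutBranching D (B i) (root i)
          else IsInBranching D (B i) (root i)) ∧
          ∀ i j, H.Adj i j → ∀ u v, ¬ ((B i).Adj u v ∧ (B j).Adj u v)) :=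
  A.main a r H

/-- The posed question: independence number at most two, one out-branching, one in-branching. -/
theorem posed : ∃ f : List (List Bool) × ℕ × ℕ → Bool, N68a2faeb.IsPolyTime f ∧
    ∀ (n : ℕ) (D : Digraph (Fin n)) [DecidableRel D.Adj] (s t : Fin n), (∀ v, ¬ D.Adj v v) →
      (∀ I : Finset (Fin n), IsIndep D I → I.card ≤ 2) →
      (f (adjMatrix D, s.val, t.val) = true ↔ HasGoodPair D s t) :=
  A.pair 2

end Pool.Agent.Results.MP_eb0bd2_lc.AllAlpha
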